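import Pool.Agent.Lib.CoP.B.Main

/-!
# MP_8cfe96_gt: Poisson homeomorphisms preserve coisotropic submanifolds
-/

open scoped Manifold ContDiff Topology
open CoP

namespace Pool.Agent.Results.MP_8cfe96_gt.PoissonHomeo

/-- Let `M` be a Hausdorff smooth manifold modelled on a finite dimensional real vector space,
`π` a Poisson bracket on `C^∞(M)`, `φ` a Poisson homeomorphism of `M` (a limit of Poisson
diffeomorphisms in the compact-open topology) and `N` a coisotropic embedded submanifold. Then the
vanishing ideal of `φ(N)` is closed under the bracket; in particular, if `φ(N)` is a smooth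
submanifold, it is coisotropic. -/
theorem result {E : Type*} [NormedAddCommGroup E] [NormedSpace ℝ E] [FiniteDimensional ℝ E]
    {M : Type*} [TopologicalSpace M] [ChartedSpace E M] [IsManifold 𝓘(ℝ, E) ∞ M] [T2Space M]
    (π : Poisson E M) (φ : M ≃ₜ M) (hφ : IsPoissonHomeo π φ) (N : Set M)
    (hN : IsSubmanifold E N) (hc : IsCoisotropic π N) : IsCoisotropic π (φ '' N) :=
  main π hφ hN hc

end Pool.Agent.Results.MP_8cfe96_gt.PoissonHomeo
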